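import Pool.Agent.H24.CL.Targets

/-!
# Lemma S (second moment on `F_q^3`), row LS
-/

set_option autoImplicit false

open Finset

namespace Pool.Agent.H5.CLV

open Pool.Agent.H24.CL

variable {q : ℕ} [Fact q.Prime]

/-- the point `x` is on the line `l` -/
def On (x : V3 q) (l : ZMod q × ZMod q × ZMod q) : Prop := (Zv x l.1, Zw x l.1) = l.2

instance (x : V3 q) (l : ZMod q × ZMod q × ZMod q) : Decidable (On x l) := by
  unfold On; infer_instance

/-- the lines `l`, `k` meet -/
def Mt (l k : ZMod q × ZMod q × ZMod q) : Prop := l.2.1 - k.2.1 = (l.1 - k.1) * (l.2.2 + k.2.2)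

instance (l k : ZMod q × ZMod q × ZMod q) : Decidable (Mt l k) := by
  unfold Mt; infer_instance

theorem on_iff (x : V3 q) (b v w : ZMod q) :
    On x (b, v, w) ↔ x 0 + 2 * b * x 1 + 3 * b ^ 2 * x 2 = v ∧ x 1 + 3 * b * x 2 = w := by
  unfold On Zv Zw
  simp [Prod.ext_iff]

/-- F1: a line has `q` points -/
theorem f1 (l : ZMod q × ZMod q × ZMod q) : (univ.filter fun x : V3 q => On x l).card = q := by
  classical
  obtain ⟨b, v, w⟩ := l
  have e : (univ.filter fun x : V3 q => On x (b, v, w)) =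
      (univ : Finset (ZMod q)).image
        (fun t => ![v - 2 * b * (w - 3 * b * t) - 3 * b ^ 2 * t, w - 3 * b * t, t]) := by
    ext x
    rw [Finset.mem_filter, on_iff, Finset.mem_image]
    constructor
    · rintro ⟨_, h1, h2⟩
      refine ⟨x 2, Finset.mem_univ _, ?_⟩
      have e1 : w - 3 * b * x 2 = x 1 := by rw [← h2]; ring
      ext i
      fin_cases i
      · show v - 2 * b * (w - 3 * b * x 2) - 3 * b ^ 2 * x 2 = x 0
        rw [e1, ← h1]; ring
      · exact e1
      · rfl
    · rintro ⟨t, _, rfl⟩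
      refine ⟨Finset.mem_univ _, ?_, ?_⟩
      · show v - 2 * b * (w - 3 * b * t) - 3 * b ^ 2 * t + 2 * b * (w - 3 * b * t) +
          3 * b ^ 2 * t = v
        ring
      · show w - 3 * b * t + 3 * b * t = w
        ring
  rw [e, Finset.card_image_of_injective, Finset.card_univ, ZMod.card]
  intro t t' h
  exact congrFun h 2

/-- F2: two different lines have at most one common point, and if they have one then they meet -/
theorem f2 (hq : 3 < q) (l k : ZMod q × ZMod q × ZMod q) (hlk : l ≠ k) :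
    (univ.filter fun x : V3 q => On x l ∧ On x k).card ≤ if Mt l k then 1 else 0 := by
  classical
  obtain ⟨b, v, w⟩ := l
  obtain ⟨b', v', w'⟩ := k
  have h3 : (3 : ZMod q) ≠ 0 := by
    intro h
    have h1 : ((3 : ℕ) : ZMod q) = 0 := by exact_mod_cast h
    rw [ZMod.natCast_eq_zero_iff] at h1
    have := Nat.le_of_dvd (by norm_num) h1
    omega
  by_cases he : (univ.filter fun x : V3 q => On x (b, v, w) ∧ On x (b', v', w')).Nonempty
  · obtain ⟨x, hx⟩ := he
    rw [Finset.mem_filter, on_iff, on_iff] at hx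
    obtain ⟨_, ⟨h1, h2⟩, h4, h5⟩ := hx
    have hbb : b ≠ b' := by
      intro e
      apply hlk
      subst e
      rw [← h1, ← h2, ← h4, ← h5]
    have hM : Mt (b, v, w) (b', v', w') := by
      show v - v' = (b - b') * (w + w')
      rw [← h1, ← h2, ← h4, ← h5]
      ring
    rw [if_pos hM]
    refine Finset.card_le_one.2 ?_
    intro y hy z hz
    rw [Finset.mem_filter, on_iff, on_iff] at hy hz
    obtain ⟨_, ⟨a1, a2⟩, a4, a5⟩ := hy
    obtain ⟨_, ⟨c1, c2⟩, c4, c5⟩ := hz
    have e2 : y 2 = z 2 := by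
      have h6 : 3 * (b - b') * (y 2 - z 2) = 0 := by
        linear_combination a2 - c2 - a5 + c5
      rcases mul_eq_zero.1 h6 with h7 | h7
      · rcases mul_eq_zero.1 h7 with h8 | h8
        · exact absurd h8 h3
        · exact absurd (sub_eq_zero.1 h8) hbb
      · exact sub_eq_zero.1 h7
    have e1 : y 1 = z 1 := by
      linear_combination a2 - c2 - 3 * b * e2
    have e0 : y 0 = z 0 := by
      linear_combination a1 - c1 - 2 * b * e1 - 3 * b ^ 2 * e2
    ext i
    fin_cases i
    · exact e0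
    · exact e1
    · exact e2
  · rw [Finset.not_nonempty_iff_eq_empty.1 he, Finset.card_empty]
    exact Nat.zero_le _

/-- F3: a line meets `q^2` lines (itself included, and some of its parallels) -/
theorem f3 (l : ZMod q × ZMod q × ZMod q) :
    (univ.filter fun k : ZMod q × ZMod q × ZMod q => Mt l k).card = q ^ 2 := by
  classical
  obtain ⟨b, v, w⟩ := l
  have e : (univ.filter fun k : ZMod q × ZMod q × ZMod q => Mt (b, v, w) k) =
      (univ : Finset (ZMod q × ZMod q)).image
        (fun t => (t.1, v - (b - t.1) * (w + t.2), t.2)) := by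
    ext k
    obtain ⟨b', v', w'⟩ := k
    rw [Finset.mem_filter, Finset.mem_image]
    constructor
    · rintro ⟨_, h⟩
      refine ⟨(b', w'), Finset.mem_univ _, ?_⟩
      have h1 : v - v' = (b - b') * (w + w') := h
      have h2 : v - (b - b') * (w + w') = v' := by rw [← h1]; ring
      show (b', v - (b - b') * (w + w'), w') = (b', v', w')
      rw [h2]
    · rintro ⟨⟨c, d⟩, _, h⟩
      refine ⟨Finset.mem_univ _, ?_⟩
      rw [← h]
      show v - (v - (b - c) * (w + d)) = (b - c) * (w + d)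
      ring
  rw [e, Finset.card_image_of_injective, Finset.card_univ, Fintype.card_prod, ZMod.card, sq]
  intro t t' h
  have h1 := congrArg Prod.fst h
  have h2 := congrArg (fun z => z.2.2) h
  exact Prod.ext h1 h2

/-- F4: at most `q` lines meet two different lines -/
theorem f4 (l l' : ZMod q × ZMod q × ZMod q) (hl : l ≠ l') :
    (univ.filter fun k : ZMod q × ZMod q × ZMod q => Mt l k ∧ Mt l' k).card ≤ q := by
  classical
  obtain ⟨b, v, w⟩ := l
  obtain ⟨b2, v2, w2⟩ := l'
  have key : ∀ c v' d : ZMod q, Mt (b, v, w) (c, v', d) → Mt (b2, v2, w2) (c, v', d) →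
      v - v' = (b - c) * (w + d) ∧
      v - v2 - b * w + b2 * w2 - (b - b2) * d + c * (w - w2) = 0 := by
    intro c v' d h1 h2
    have h1' : v - v' = (b - c) * (w + d) := h1
    have h2' : v2 - v' = (b2 - c) * (w2 + d) := h2
    refine ⟨h1', ?_⟩
    linear_combination h1' - h2'
  have hc : (univ : Finset (ZMod q)).card = q := by rw [Finset.card_univ, ZMod.card]
  by_cases hb : b = b2
  · by_cases hw : w = w2
    · have he : (univ.filter fun k : ZMod q × ZMod q × ZMod q =>
          Mt (b, v, w) k ∧ Mt (b2, v2, w2) k) = ∅ := by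
        rw [Finset.filter_eq_empty_iff]
        rintro ⟨c, v', d⟩ _ ⟨h1, h2⟩
        have h3 := (key c v' d h1 h2).2
        apply hl
        rw [hb, hw] at h3 ⊢
        have h4 : v - v2 = 0 := by linear_combination h3
        rw [sub_eq_zero.1 h4]
      rw [he, Finset.card_empty]
      exact Nat.zero_le _
    · calc (univ.filter fun k : ZMod q × ZMod q × ZMod q =>
            Mt (b, v, w) k ∧ Mt (b2, v2, w2) k).card ≤ (univ : Finset (ZMod q)).card := by
            refine Finset.card_le_card_of_injOn (fun k => k.2.2) (fun _ _ => Finset.mem_coe.2 (Finset.mem_univ _)) ?_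
            rintro ⟨c, v', d⟩ h1 ⟨c', v'', d'⟩ h2 e
            have e' : d = d' := e
            subst e'
            have g1 := (Finset.mem_filter.1 (Finset.mem_coe.1 h1)).2
            have g2 := (Finset.mem_filter.1 (Finset.mem_coe.1 h2)).2
            obtain ⟨p1, p2⟩ := key _ _ _ g1.1 g1.2
            obtain ⟨p3, p4⟩ := key _ _ _ g2.1 g2.2
            have h5 : (c - c') * (w - w2) = 0 := by linear_combination p2 - p4
            have h6 : c = c' := by
              rcases mul_eq_zero.1 h5 with h | h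
              · exact sub_eq_zero.1 h
              · exact absurd (sub_eq_zero.1 h) hw
            subst h6
            have h7 : v' = v'' := by linear_combination p3 - p1
            rw [h7]
        _ = q := hc
  · calc (univ.filter fun k : ZMod q × ZMod q × ZMod q =>
          Mt (b, v, w) k ∧ Mt (b2, v2, w2) k).card ≤ (univ : Finset (ZMod q)).card := by
          refine Finset.card_le_card_of_injOn (fun k => k.1) (fun _ _ => Finset.mem_coe.2 (Finset.mem_univ _)) ?_
          rintro ⟨c, v', d⟩ h1 ⟨c', v'', d'⟩ h2 e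
          have e' : c = c' := e
          subst e'
          have g1 := (Finset.mem_filter.1 (Finset.mem_coe.1 h1)).2
          have g2 := (Finset.mem_filter.1 (Finset.mem_coe.1 h2)).2
          obtain ⟨p1, p2⟩ := key _ _ _ g1.1 g1.2
          obtain ⟨p3, p4⟩ := key _ _ _ g2.1 g2.2
          have h5 : (d' - d) * (b - b2) = 0 := by linear_combination p2 - p4
          have h6 : d' = d := by
            rcases mul_eq_zero.1 h5 with h | h
            · exact sub_eq_zero.1 h
            · exact absurd (sub_eq_zero.1 h) hb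
          subst h6
          have h7 : v' = v'' := by linear_combination p3 - p1
          rw [h7]
      _ = q := hc

/-- indicator of a pair of lines which meet -/
noncomputable def J (l k : ZMod q × ZMod q × ZMod q) : ℝ := if Mt l k then 1 else 0

/-- indicator of the incidence -/
noncomputable def I (x : V3 q) (l : ZMod q × ZMod q × ZMod q) : ℝ := if On x l then 1 else 0

theorem sum_J (l : ZMod q × ZMod q × ZMod q) : ∑ k, J l k = (q : ℝ) ^ 2 := by
  unfold J
  rw [Finset.sum_boole, f3]
  push_cast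
  rfl

theorem sum_JJ (l l' : ZMod q × ZMod q × ZMod q) :
    ∑ k, J l k * J l' k ≤ (if l = l' then (q : ℝ) ^ 2 else 0) + q := by
  by_cases h : l = l'
  · rw [if_pos h, ← h]
    have h1 : ∀ k, J l k * J l k = J l k := by
      intro k
      unfold J
      split_ifs <;> norm_num
    rw [Finset.sum_congr rfl fun k _ => h1 k, sum_J]
    have : (0 : ℝ) ≤ q := Nat.cast_nonneg q
    linarith
  · rw [if_neg h, zero_add]
    have h1 : ∀ k, J l k * J l' k = if Mt l k ∧ Mt l' k then 1 else 0 := by
      intro k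
      unfold J
      by_cases h1 : Mt l k <;> by_cases h2 : Mt l' k <;> simp [h1, h2]
    rw [Finset.sum_congr rfl fun k _ => h1 k, Finset.sum_boole]
    exact_mod_cast f4 l l' h

theorem sum_I (l : ZMod q × ZMod q × ZMod q) : ∑ x, I x l = (q : ℝ) := by
  unfold I
  rw [Finset.sum_boole, f1]

theorem sum_II (hq : 3 < q) (l k : ZMod q × ZMod q × ZMod q) :
    ∑ x, I x l * I x k ≤ (if l = k then (q : ℝ) else 0) + J l k := by
  have hJ : 0 ≤ J l k := by
    unfold J
    split_ifs <;> norm_num
  by_cases h : l = k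
  · rw [if_pos h, ← h]
    have h1 : ∀ x, I x l * I x l = I x l := by
      intro x
      unfold I
      split_ifs <;> norm_num
    rw [Finset.sum_congr rfl fun x _ => h1 x, sum_I]
    rw [← h] at hJ
    linarith
  · rw [if_neg h, zero_add]
    have h1 : ∀ x, I x l * I x k = if On x l ∧ On x k then 1 else 0 := by
      intro x
      unfold I
      by_cases h1 : On x l <;> by_cases h2 : On x k <;> simp [h1, h2]
    rw [Finset.sum_congr rfl fun x _ => h1 x, Finset.sum_boole]
    unfold J
    have h2 := f2 hq l k h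
    have h3 : ((univ.filter fun x : V3 q => On x l ∧ On x k).card : ℝ) ≤
        ((if Mt l k then 1 else 0 : ℕ) : ℝ) := by exact_mod_cast h2
    refine h3.trans (le_of_eq ?_)
    split_ifs <;> simp

/-- the number of the pairs of lines which meet -/
theorem ntot (L : Finset (ZMod q × ZMod q × ZMod q)) :
    ∑ k ∈ L, ∑ l ∈ L, J l k ≤ (L.card : ℝ) ^ 2 / q + q * L.card := by
  have hq : (0 : ℝ) < q := by exact_mod_cast (Fact.out : q.Prime).pos
  obtain ⟨s, hs⟩ : ∃ s : ℝ, s = (L.card : ℝ) := ⟨_, rfl⟩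
  have hT1 : ∑ k, ∑ l ∈ L, J l k = s * (q : ℝ) ^ 2 := by
    rw [Finset.sum_comm, Finset.sum_congr rfl fun l _ => sum_J l, Finset.sum_const, nsmul_eq_mul,
      hs]
  have hT2 : ∑ k, (∑ l ∈ L, J l k) ^ 2 ≤ s * (q : ℝ) ^ 2 + s ^ 2 * q := by
    have e1 : ∀ k, (∑ l ∈ L, J l k) ^ 2 = ∑ l ∈ L, ∑ l' ∈ L, J l k * J l' k := by
      intro k
      rw [sq, Finset.sum_mul_sum]
    rw [Finset.sum_congr rfl fun k _ => e1 k, Finset.sum_comm]
    have e2 : ∀ l ∈ L, ∑ k, ∑ l' ∈ L, J l k * J l' k ≤ (q : ℝ) ^ 2 + s * q := by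
      intro l hl
      rw [Finset.sum_comm]
      refine (Finset.sum_le_sum fun l' _ => sum_JJ l l').trans (le_of_eq ?_)
      rw [Finset.sum_add_distrib, Finset.sum_ite_eq, if_pos hl, Finset.sum_const, nsmul_eq_mul, hs]
    refine (Finset.sum_le_sum e2).trans (le_of_eq ?_)
    rw [Finset.sum_const, nsmul_eq_mul, ← hs]
    ring
  have hT3 : ∑ k, ((∑ l ∈ L, J l k) - s / q) ^ 2 ≤ s * (q : ℝ) ^ 2 := by
    have e1 : ∀ k, ((∑ l ∈ L, J l k) - s / q) ^ 2 = (∑ l ∈ L, J l k) ^ 2 -
        2 * (s / q) * (∑ l ∈ L, J l k) + (s / q) ^ 2 := fun k => by ring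
    rw [Finset.sum_congr rfl fun k _ => e1 k, Finset.sum_add_distrib, Finset.sum_sub_distrib,
      ← Finset.mul_sum, hT1, Finset.sum_const, Finset.card_univ, Fintype.card_prod,
      Fintype.card_prod, ZMod.card, nsmul_eq_mul]
    push_cast
    have e2 : 2 * (s / q) * (s * (q : ℝ) ^ 2) = 2 * s ^ 2 * q := by
      field_simp
    have e3 : (q : ℝ) * (q * q) * (s / q) ^ 2 = s ^ 2 * q := by
      field_simp
    rw [e2, e3]
    linarith
  have hT4 : ∀ k, (∑ l ∈ L, J l k) ≤ s / q + q / 2 + ((∑ l ∈ L, J l k) - s / q) ^ 2 / (2 * q) := by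
    intro k
    have e1 : ((∑ l ∈ L, J l k) - s / q - q) ^ 2 / (2 * q) = q / 2 - ((∑ l ∈ L, J l k) - s / q) +
        ((∑ l ∈ L, J l k) - s / q) ^ 2 / (2 * q) := by
      field_simp
      ring
    have e2 : 0 ≤ ((∑ l ∈ L, J l k) - s / q - q) ^ 2 / (2 * q) := by positivity
    linarith
  calc ∑ k ∈ L, ∑ l ∈ L, J l k ≤ ∑ k ∈ L, (s / q + q / 2 +
        ((∑ l ∈ L, J l k) - s / q) ^ 2 / (2 * q)) := Finset.sum_le_sum fun k _ => hT4 k
    _ = s * (s / q + q / 2) + (∑ k ∈ L, ((∑ l ∈ L, J l k) - s / q) ^ 2) / (2 * q) := by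
        rw [Finset.sum_add_distrib, Finset.sum_const, nsmul_eq_mul, ← Finset.sum_div, hs]
    _ ≤ s * (s / q + q / 2) + (s * (q : ℝ) ^ 2) / (2 * q) := by
        have h1 : ∑ k ∈ L, ((∑ l ∈ L, J l k) - s / q) ^ 2 ≤ s * (q : ℝ) ^ 2 :=
          (Finset.sum_le_sum_of_subset_of_nonneg (Finset.subset_univ L)
            fun _ _ _ => sq_nonneg _).trans hT3
        have h2 : (∑ k ∈ L, ((∑ l ∈ L, J l k) - s / q) ^ 2) / (2 * q) ≤
            (s * (q : ℝ) ^ 2) / (2 * q) := div_le_div_of_nonneg_right h1 (by positivity)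
        linarith
    _ = (L.card : ℝ) ^ 2 / q + q * L.card := by
        rw [← hs]
        field_simp
        ring

theorem pf_LS : T_LS := by
  classical
  intro q _ hq3 S Y n hn hS hY
  have hq : (0 : ℝ) < q := by exact_mod_cast (Fact.out : q.Prime).pos
  obtain ⟨L, hL⟩ : ∃ L : Finset (ZMod q × ZMod q × ZMod q), L = univ.filter fun l => l.2 ∈ S l.1 :=
    ⟨_, rfl⟩
  obtain ⟨s, hs⟩ : ∃ s : ℝ, s = (L.card : ℝ) := ⟨_, rfl⟩
  have hsS : ∑ b, ((S b).card : ℝ) = s := by
    rw [hs, hL, Finset.card_filter, Fintype.sum_prod_type]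
    push_cast
    refine Finset.sum_congr rfl fun b _ => ?_
    rw [Finset.sum_boole, Finset.filter_mem_eq_inter, Finset.univ_inter]
  rw [hsS] at hS ⊢
  have h1 : ∑ x, ∑ l ∈ L, I x l = s * q := by
    rw [Finset.sum_comm, Finset.sum_congr rfl fun l _ => sum_I l, Finset.sum_const, nsmul_eq_mul,
      hs]
  have h2 : ∑ x, (∑ l ∈ L, I x l) ^ 2 ≤ s * q + (s ^ 2 / q + q * s) := by
    have e1 : ∀ x, (∑ l ∈ L, I x l) ^ 2 = ∑ l ∈ L, ∑ l' ∈ L, I x l * I x l' := by
      intro x
      rw [sq, Finset.sum_mul_sum]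
    rw [Finset.sum_congr rfl fun x _ => e1 x, Finset.sum_comm]
    have e2 : ∀ l ∈ L, ∑ x, ∑ l' ∈ L, I x l * I x l' ≤ (q : ℝ) + ∑ l' ∈ L, J l l' := by
      intro l hl
      rw [Finset.sum_comm]
      refine (Finset.sum_le_sum fun l' _ => sum_II hq3 l l').trans (le_of_eq ?_)
      rw [Finset.sum_add_distrib, Finset.sum_ite_eq, if_pos hl]
    refine (Finset.sum_le_sum e2).trans ?_
    rw [Finset.sum_add_distrib, Finset.sum_const, nsmul_eq_mul, ← hs, Finset.sum_comm]
    have := ntot L
    rw [← hs] at this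
    linarith
  have h3 : ∑ x, ((∑ l ∈ L, I x l) - s / q ^ 2) ^ 2 ≤ 2 * (q * s) := by
    have e1 : ∀ x, ((∑ l ∈ L, I x l) - s / q ^ 2) ^ 2 = (∑ l ∈ L, I x l) ^ 2 -
        2 * (s / q ^ 2) * (∑ l ∈ L, I x l) + (s / q ^ 2) ^ 2 := fun x => by ring
    rw [Finset.sum_congr rfl fun x _ => e1 x, Finset.sum_add_distrib, Finset.sum_sub_distrib,
      ← Finset.mul_sum, h1, Finset.sum_const, Finset.card_univ, Fintype.card_fun, ZMod.card,
      Fintype.card_fin, nsmul_eq_mul]
    push_cast
    have e2 : 2 * (s / (q : ℝ) ^ 2) * (s * q) = 2 * (s ^ 2 / q) := by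
      field_simp
    have e3 : (q : ℝ) ^ 3 * (s / (q : ℝ) ^ 2) ^ 2 = s ^ 2 / q := by
      field_simp
    rw [e2, e3]
    linarith
  have h4 : ∀ x ∈ Y, n / 2 ≤ (∑ l ∈ L, I x l) - s / q ^ 2 := by
    intro x hx
    obtain ⟨D, hD, hDS⟩ := hY x hx
    have e1 : (D.card : ℝ) ≤ ∑ l ∈ L, I x l := by
      unfold I
      rw [Finset.sum_boole]
      have e2 : D.card ≤ (L.filter fun l => On x l).card := by
        refine Finset.card_le_card_of_injOn (fun b => (b, Zv x b, Zw x b)) ?_ ?_
        · intro b hb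
          rw [Finset.mem_coe, Finset.mem_filter, hL, Finset.mem_filter]
          exact ⟨⟨Finset.mem_univ _, hDS b hb⟩, rfl⟩
        · intro b _ b' _ h
          exact congrArg Prod.fst h
      exact_mod_cast e2
    have e3 : s / (q : ℝ) ^ 2 ≤ n / 2 := by
      rw [div_le_iff₀ (by positivity)]
      linarith
    linarith
  have h5 : (Y.card : ℝ) * (n / 2) ^ 2 ≤ 2 * (q * s) := by
    refine le_trans ?_ h3
    refine le_trans ?_ (Finset.sum_le_sum_of_subset_of_nonneg (Finset.subset_univ Y)
      fun _ _ _ => sq_nonneg _)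
    rw [← nsmul_eq_mul, ← Finset.sum_const]
    refine Finset.sum_le_sum fun x hx => ?_
    have := h4 x hx
    exact pow_le_pow_left₀ (by positivity) this 2
  nlinarith

end Pool.Agent.H5.CLV
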